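import Pool.Agent.helper76.UF.Spec

set_option autoImplicit false

/-!
# Row RL1 of project UF: separate coprime parts
-/

namespace Pool.Agent.UF

open Finset Polynomial NumberField

/-- Row RL1. -/
theorem RL1 : RL1_stmt := by
  intro R _ _ _ s I J e j hIJ hcop heq t ht
  have cI : ∀ u ∈ s, ∀ v ∈ s, u ≠ v → IsCoprime (I u) (J v) := fun u hu v hv huv =>
    (hcop u hu v hv huv).of_isCoprime_of_dvd_left (hIJ u hu)
  apply dvd_antisymm
  · have hc : IsCoprime (I t ^ e t) (∏ u ∈ s.erase t, J u ^ j u) :=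
      IsCoprime.prod_right fun u hu =>
        (cI t ht u (mem_of_mem_erase hu) (ne_of_mem_erase hu).symm).pow
    have hd : I t ^ e t ∣ J t ^ j t * ∏ u ∈ s.erase t, J u ^ j u := by
      rw [mul_prod_erase s (fun u => J u ^ j u) ht, ← heq]
      exact dvd_prod_of_mem (fun u => I u ^ e u) ht
    exact hc.dvd_of_dvd_mul_right hd
  · have hc : IsCoprime (J t ^ j t) (∏ u ∈ s.erase t, I u ^ e u) :=
      IsCoprime.prod_right fun u hu =>
        ((cI u (mem_of_mem_erase hu) t ht (ne_of_mem_erase hu)).symm).pow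
    have hd : J t ^ j t ∣ I t ^ e t * ∏ u ∈ s.erase t, I u ^ e u := by
      rw [mul_prod_erase s (fun u => I u ^ e u) ht, heq]
      exact dvd_prod_of_mem (fun u => J u ^ j u) ht
    exact hc.dvd_of_dvd_mul_right hd

end Pool.Agent.UF
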